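import Mathlib
import Pool.Agent.R351.GF.Fin

/-!
# The conjectural measure of algebraic independence for the logarithms of almost all tuples of integers

For all `k` and `d` there is a constant `C` such that the following holds for all `T ≥ 1`.

* For all `0 < κ ≤ 1`, for all but at most `C (κ ^ (1 / C) T ^ k + T ^ (k - 1 / C))` of the `T ^ k` tuples
  `n` of integers in `[1, T]`, the lower bound `|P (l)| ≥ κ H ^ (- C)` holds for all heights
  `2 ≤ H ≤ exp (exp (T ^ (1 / C)))`, all logarithms `l i` of the `n i` with `|Im (l i)| ≤ H` and all nonzero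
  polynomials `P` with integer coefficients, of degree at most `d` and height at most `H`.
* For every single height `H ≥ T`, the lower bound `|P (l)| ≥ H ^ (- C)` holds for all but at most
  `C T ^ (k - 1 / C)` of the tuples.
* For every unbounded set of heights, for all but at most `C T ^ (k - 1 / C)` of the tuples the lower bound
  `|P (l)| ≥ H ^ (- C)` holds for arbitrarily large heights `H` in the set.
-/

set_option autoImplicit false

namespace Pool.Agent.Results.MP_3cf473_nt.AlmostAllTuples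

/-- The tuples `n` of `k` integers with `1 ≤ n i ≤ T`. -/
def box (k T : ℕ) : Finset (Fin k → ℕ) := Fintype.piFinset fun _ => Finset.Icc 1 T

/-- There are logarithms `l i` of the integers `n i` (of any branch with `|Im (l i)| ≤ H`) and a nonzero
polynomial `P` with integer coefficients, of total degree at most `d` and height at most `H`, such that
`|P (l)| < η`. -/
def Small {k : ℕ} (d : ℕ) (H η : ℝ) (n : Fin k → ℕ) : Prop :=
  ∃ l : Fin k → ℂ, (∀ i, Complex.exp (l i) = n i) ∧ (∀ i, |(l i).im| ≤ H) ∧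
    ∃ P : MvPolynomial (Fin k) ℤ, P ≠ 0 ∧ P.totalDegree ≤ d ∧
      (∀ s, |((P.coeff s : ℤ) : ℝ)| ≤ H) ∧ ‖MvPolynomial.aeval l P‖ < η

open Classical in
/-- **Main result.** -/
theorem result (k d : ℕ) : ∃ C : ℕ, 0 < C ∧ ∀ T : ℕ, 1 ≤ T →
    (∀ κ : ℝ, 0 < κ → κ ≤ 1 →
      (((box k T).filter fun n => ∃ H : ℝ, 2 ≤ H ∧
        H ≤ Real.exp (Real.exp ((T : ℝ) ^ (1 / (C : ℝ)))) ∧ Small d H (κ / H ^ C) n).card : ℝ) ≤
        C * (κ ^ (1 / (C : ℝ)) * (T : ℝ) ^ k + (T : ℝ) ^ ((k : ℝ) - 1 / C))) ∧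
    (∀ H : ℝ, 2 ≤ H → T ≤ H →
      (((box k T).filter fun n => Small d H (1 / H ^ C) n).card : ℝ) ≤
        C * (T : ℝ) ^ ((k : ℝ) - 1 / C)) ∧
    (∀ 𝓗 : Set ℝ, ¬ BddAbove 𝓗 →
      (((box k T).filter fun n => ∃ H₀ : ℝ, ∀ H ∈ 𝓗, H₀ ≤ H → Small d H (1 / H ^ C) n).card : ℝ) ≤
        C * (T : ℝ) ^ ((k : ℝ) - 1 / C)) := by
  obtain ⟨C, hC, h⟩ := Pool.Agent.R351.GF.main_range k d
  have hI : ∀ T : ℕ, Finset.Ioc 0 T = Finset.Icc 1 T := fun T => rfl
  refine ⟨C, hC, fun T hT => ?_⟩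
  obtain ⟨h1, h2, h3⟩ := h T hT
  exact ⟨fun κ hκ hκ1 => h1 κ hκ hκ1, h2, h3⟩

end Pool.Agent.Results.MP_3cf473_nt.AlmostAllTuples
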