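import Mathlib
import Pool.Agent.R559.NP.Near
import Pool.Agent.R559.NP.Near6
import Pool.Agent.Results.MP_3cf473_nt.AlmostAllTuples

/-!
# Algebraic independence measures for the logarithms of the tuples of integers near a given point

Let `m ≥ 1` and `k = m + 1`. For every `d` there is a constant `C = C (k, d)` such that, for every map `φ` from the
`k`-tuples of positive integers to a metric space, the lower bound `|P (l)| ≥ 1 / (|n| H ^ C)`, for all heights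
`2 ≤ H ≤ exp (exp (|n| ^ (1 / C)))`, all logarithms `l i` of the `n i` and all nonzero integer polynomials `P` of
degree at most `d` and height at most `H`, holds for all but finitely many of the tuples `n` with
`dist (φ n) ξ ≤ A |n| ^ (-τ)`, for all points `ξ` outside a set of dimension at most `(k - 1 / C) / τ`; and, for all
`d` simultaneously, for almost all `ξ` with respect to every measure of dimension at least `k / τ`.

Special case: the logarithms of the numerators and of the denominator of the simultaneous rational approximations of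
the quality of Dirichlet's theorem (for `m = 1`: of the convergents), to almost every point of `ℝ ^ m`.
-/

set_option autoImplicit false

namespace Pool.Agent.Results.MP_3cf473_nt.DirectionsNearAPoint

open MeasureTheory

/-- The size `|n|`, the largest of the integers `n i`. -/
def size {k : ℕ} (n : Fin k → ℕ) : ℕ := Finset.univ.sup n

/-- The conjectured measure of algebraic independence `|P (l)| ≥ 1 / (|n| H ^ C)` for the logarithms of the integers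
`n i`: for all heights `2 ≤ H ≤ exp (exp (|n| ^ (1 / C)))`, all logarithms `l i` of the `n i` (of any branch with
`|Im (l i)| ≤ H`) and all nonzero polynomials `P` with integer coefficients, of total degree at most `d` and height at
most `H`. -/
def HasMeasure {k : ℕ} (d C : ℕ) (n : Fin k → ℕ) : Prop :=
  ∀ H : ℝ, 2 ≤ H → H ≤ Real.exp (Real.exp ((size n : ℝ) ^ (1 / (C : ℝ)))) →
    ∀ l : Fin k → ℂ, (∀ i, Complex.exp (l i) = n i) → (∀ i, |(l i).im| ≤ H) →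
    ∀ P : MvPolynomial (Fin k) ℤ, P ≠ 0 → P.totalDegree ≤ d →
      (∀ s, |((P.coeff s : ℤ) : ℝ)| ≤ H) → 1 / ((size n : ℝ) * H ^ C) ≤ ‖MvPolynomial.aeval l P‖

lemma le_size {k : ℕ} (n : Fin k → ℕ) (i : Fin k) : n i ≤ size n :=
  Finset.le_sup (f := n) (Finset.mem_univ i)

lemma size_le {k : ℕ} {n : Fin k → ℕ} {T : ℕ} : size n ≤ T ↔ ∀ i, n i ≤ T := by
  simp [size, Finset.sup_le_iff]

/-- the count of the exceptional tuples in a dyadic block -/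
theorem block_count (m d : ℕ) : ∃ C : ℕ, 2 ≤ C ∧ ∀ T : ℕ, 2 ≤ T →
    (({n : Fin (m + 1) → ℕ | ((∀ i, 1 ≤ n i) ∧ ¬ HasMeasure d C n) ∧ size n ≤ T ∧
      T < 2 * size n}.ncard : ℕ) : ℝ) ≤
      (3 * C : ℝ) * (T : ℝ) ^ (((m + 1 : ℕ) : ℝ) - 1 / C) := by
  classical
  obtain ⟨C₀, hC₀, h⟩ := AlmostAllTuples.result (m + 1) d
  refine ⟨C₀ + 1, by omega, fun T hT => ?_⟩
  have hT1 : (1 : ℝ) < (T : ℝ) := by exact_mod_cast (by omega : 1 < T)
  have hT2 : (2 : ℝ) ≤ (T : ℝ) := by exact_mod_cast hT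
  have hT0 : (0 : ℝ) < (T : ℝ) := by linarith
  obtain ⟨h1, -, -⟩ := h T (by omega)
  have hκ : (0 : ℝ) < 2 / T := by positivity
  have hκ1 : (2 : ℝ) / T ≤ 1 := by
    rw [div_le_one hT0]
    exact hT2
  have h2 := h1 (2 / T) hκ hκ1
  have hC0 : (0 : ℝ) < (C₀ : ℝ) := by exact_mod_cast hC₀
  have hCle : 1 / ((C₀ + 1 : ℕ) : ℝ) ≤ 1 / (C₀ : ℝ) := by
    push_cast
    exact one_div_le_one_div_of_le hC0 (by linarith)
  have hCpos : 0 < 1 / ((C₀ + 1 : ℕ) : ℝ) := by positivity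
  have hCone : 1 / ((C₀ + 1 : ℕ) : ℝ) ≤ 1 := by
    rw [div_le_one (by positivity)]
    push_cast
    linarith
  -- the exceptional set is contained in the filtered box
  have hsub : {n : Fin (m + 1) → ℕ | ((∀ i, 1 ≤ n i) ∧ ¬ HasMeasure d (C₀ + 1) n) ∧ size n ≤ T ∧
      T < 2 * size n} ⊆ (((AlmostAllTuples.box (m + 1) T).filter fun n => ∃ H : ℝ, 2 ≤ H ∧
        H ≤ Real.exp (Real.exp ((T : ℝ) ^ (1 / (C₀ : ℝ)))) ∧
        AlmostAllTuples.Small d H ((2 / T) / H ^ C₀) n : Finset (Fin (m + 1) → ℕ)) :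
        Set (Fin (m + 1) → ℕ)) := by
    rintro n ⟨⟨hn1, hn2⟩, hn3, hn4⟩
    rw [Finset.mem_coe, Finset.mem_filter]
    refine ⟨?_, ?_⟩
    · rw [AlmostAllTuples.box, Fintype.mem_piFinset]
      exact fun i => Finset.mem_Icc.2 ⟨hn1 i, (le_size n i).trans hn3⟩
    · unfold HasMeasure at hn2
      push Not at hn2
      obtain ⟨H, hH1, hH2, l, hl1, hl2, P, hP1, hP2, hP3, hP4⟩ := hn2
      refine ⟨H, hH1, ?_, l, hl1, hl2, P, hP1, hP2, hP3, ?_⟩
      · refine hH2.trans (Real.exp_le_exp.2 (Real.exp_le_exp.2 ?_))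
        have h5 : (size n : ℝ) ≤ T := by exact_mod_cast hn3
        exact (Real.rpow_le_rpow (by positivity) h5 hCpos.le).trans
          (Real.rpow_le_rpow_of_exponent_le hT1.le hCle)
      · refine lt_of_lt_of_le hP4 ?_
        have h5 : (T : ℝ) < 2 * size n := by exact_mod_cast hn4
        have h6 : (0 : ℝ) < size n := by linarith
        have h7 : H ^ C₀ ≤ H ^ (C₀ + 1) := pow_le_pow_right₀ (by linarith) (by omega)
        have h8 : (0 : ℝ) < H ^ C₀ := by positivity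
        rw [div_div, div_le_div_iff₀ (by positivity) (by positivity)]
        calc 1 * ((T : ℝ) * H ^ C₀) = T * H ^ C₀ := one_mul _
          _ ≤ (2 * size n) * H ^ (C₀ + 1) := mul_le_mul h5.le h7 h8.le (by positivity)
          _ = 2 * ((size n : ℝ) * H ^ (C₀ + 1)) := by ring
  have h3 := Set.ncard_le_ncard hsub (Finset.finite_toSet _)
  rw [Set.ncard_coe_finset] at h3
  have h4 : (2 / (T : ℝ)) ^ (1 / (C₀ : ℝ)) ≤ 2 * (T : ℝ) ^ (-(1 / ((C₀ + 1 : ℕ) : ℝ))) := by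
    calc (2 / (T : ℝ)) ^ (1 / (C₀ : ℝ)) ≤ (2 / (T : ℝ)) ^ (1 / ((C₀ + 1 : ℕ) : ℝ)) :=
          Real.rpow_le_rpow_of_exponent_ge hκ hκ1 hCle
      _ = 2 ^ (1 / ((C₀ + 1 : ℕ) : ℝ)) * (T : ℝ) ^ (-(1 / ((C₀ + 1 : ℕ) : ℝ))) := by
          rw [Real.div_rpow (by norm_num) hT0.le, Real.rpow_neg hT0.le]
          rfl
      _ ≤ 2 ^ (1 : ℝ) * (T : ℝ) ^ (-(1 / ((C₀ + 1 : ℕ) : ℝ))) := by
          gcongr
          norm_num
      _ = 2 * (T : ℝ) ^ (-(1 / ((C₀ + 1 : ℕ) : ℝ))) := by rw [Real.rpow_one]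
  have h5 : (T : ℝ) ^ (-(1 / ((C₀ + 1 : ℕ) : ℝ))) * (T : ℝ) ^ (m + 1) =
      (T : ℝ) ^ (((m + 1 : ℕ) : ℝ) - 1 / ((C₀ + 1 : ℕ) : ℝ)) := by
    rw [← Real.rpow_natCast, ← Real.rpow_add hT0]
    congr 1
    ring
  have h6 : (T : ℝ) ^ (((m + 1 : ℕ) : ℝ) - 1 / (C₀ : ℝ)) ≤
      (T : ℝ) ^ (((m + 1 : ℕ) : ℝ) - 1 / ((C₀ + 1 : ℕ) : ℝ)) :=
    Real.rpow_le_rpow_of_exponent_le hT1.le (by linarith)
  calc _ ≤ (((AlmostAllTuples.box (m + 1) T).filter fun n => ∃ H : ℝ, 2 ≤ H ∧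
        H ≤ Real.exp (Real.exp ((T : ℝ) ^ (1 / (C₀ : ℝ)))) ∧
        AlmostAllTuples.Small d H ((2 / T) / H ^ C₀) n).card : ℝ) := by exact_mod_cast h3
    _ ≤ C₀ * ((2 / (T : ℝ)) ^ (1 / (C₀ : ℝ)) * (T : ℝ) ^ (m + 1) +
        (T : ℝ) ^ (((m + 1 : ℕ) : ℝ) - 1 / (C₀ : ℝ))) := by
        refine le_of_eq_of_le ?_ h2
        congr!
    _ ≤ C₀ * ((2 * (T : ℝ) ^ (-(1 / ((C₀ + 1 : ℕ) : ℝ)))) * (T : ℝ) ^ (m + 1) +
        (T : ℝ) ^ (((m + 1 : ℕ) : ℝ) - 1 / ((C₀ + 1 : ℕ) : ℝ))) := by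
        gcongr
    _ = 3 * C₀ * (T : ℝ) ^ (((m + 1 : ℕ) : ℝ) - 1 / ((C₀ + 1 : ℕ) : ℝ)) := by
        rw [mul_assoc 2, h5]
        ring
    _ ≤ 3 * ((C₀ + 1 : ℕ) : ℝ) * (T : ℝ) ^ (((m + 1 : ℕ) : ℝ) - 1 / ((C₀ + 1 : ℕ) : ℝ)) := by
        gcongr
        omega

/-- the count of the exceptional tuples -/
theorem count (m d : ℕ) : ∃ C : ℕ, 2 ≤ C ∧ ∃ K : ℝ, 0 ≤ K ∧ ∀ B : ℝ, 1 ≤ B →
    {n : Fin (m + 1) → ℕ | ((∀ i, 1 ≤ n i) ∧ ¬ HasMeasure d C n) ∧
      max (1 : ℝ) (size n) ≤ B}.Finite ∧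
    (({n : Fin (m + 1) → ℕ | ((∀ i, 1 ≤ n i) ∧ ¬ HasMeasure d C n) ∧
      max (1 : ℝ) (size n) ≤ B}.ncard : ℕ) : ℝ) ≤ K * B ^ (((m + 1 : ℕ) : ℝ) - 1 / C) := by
  obtain ⟨C, hC, h⟩ := block_count m d
  have hC2 : (2 : ℝ) ≤ (C : ℝ) := by exact_mod_cast hC
  have hhalf : 1 / (C : ℝ) ≤ 1 / 2 := one_div_le_one_div_of_le (by norm_num) hC2
  have hs : 0 < ((m + 1 : ℕ) : ℝ) - 1 / C := by
    push_cast
    have : (0 : ℝ) ≤ (m : ℝ) := by positivity
    linarith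
  have hfin : ∀ T : ℕ, {n : Fin (m + 1) → ℕ | ((∀ i, 1 ≤ n i) ∧ ¬ HasMeasure d C n) ∧
      size n ≤ T}.Finite := by
    intro T
    refine (Fintype.piFinset fun _ : Fin (m + 1) => Finset.Icc 1 T).finite_toSet.subset ?_
    rintro n ⟨⟨h1, -⟩, h2⟩
    rw [Finset.mem_coe, Fintype.mem_piFinset]
    exact fun i => Finset.mem_Icc.2 ⟨h1 i, (le_size n i).trans h2⟩
  obtain ⟨K, hK0, hK⟩ := Pool.Agent.R559.NP.dyadic_count (f := size) hs hfin h
  refine ⟨C, hC, K, hK0, fun B hB => ?_⟩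
  have hsub : {n : Fin (m + 1) → ℕ | ((∀ i, 1 ≤ n i) ∧ ¬ HasMeasure d C n) ∧
      max (1 : ℝ) (size n) ≤ B} ⊆ {n : Fin (m + 1) → ℕ | ((∀ i, 1 ≤ n i) ∧ ¬ HasMeasure d C n) ∧
      size n ≤ ⌊B⌋₊} := by
    rintro n ⟨h1, h2⟩
    exact ⟨h1, Nat.le_floor ((le_max_right _ _).trans h2)⟩
  have hB1 : 1 ≤ ⌊B⌋₊ := Nat.one_le_floor_iff _ |>.2 hB
  refine ⟨(hfin _).subset hsub, ?_⟩
  calc _ ≤ (({n : Fin (m + 1) → ℕ | ((∀ i, 1 ≤ n i) ∧ ¬ HasMeasure d C n) ∧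
      size n ≤ ⌊B⌋₊}.ncard : ℕ) : ℝ) := by exact_mod_cast Set.ncard_le_ncard hsub (hfin _)
    _ ≤ K * ((⌊B⌋₊ : ℕ) : ℝ) ^ (((m + 1 : ℕ) : ℝ) - 1 / C) := hK _ hB1
    _ ≤ K * B ^ (((m + 1 : ℕ) : ℝ) - 1 / C) := by
        gcongr
        exact Nat.floor_le (by linarith)

/-- **Main result.** The conjectured measure of algebraic independence, of the form `|P (l)| ≥ 1 / (|n| H ^ C)` for all
heights `2 ≤ H ≤ exp (exp (|n| ^ (1 / C)))`, `C = C (k, d)`, `k = m + 1`, holds for the logarithms of all but finitely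
many of the `k`-tuples of positive integers near a point `ξ`, for all `ξ` outside a set of dimension at most
`(k - 1 / C) / τ` and for almost all `ξ`; in particular for those of the numerators and of the denominator of all
but finitely many of the simultaneous rational approximations of the quality of Dirichlet's theorem, to almost
every point `x ∈ ℝ ^ m`. -/
theorem result (m : ℕ) (hm : 1 ≤ m) : ∃ C : ℕ → ℕ, (∀ d, 2 ≤ C d) ∧
    (∀ (X : Type) [MetricSpace X] (φ : (Fin (m + 1) → ℕ) → X),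
      (∀ (d : ℕ) (τ : ℝ), 0 < τ → ∃ E : Set X,
        dimH E ≤ ENNReal.ofReal (((m : ℝ) + 1 - 1 / C d) / τ) ∧
        ∀ ξ : X, ξ ∉ E → ∀ A : ℝ, {n : Fin (m + 1) → ℕ | (∀ i, 1 ≤ n i) ∧
          dist (φ n) ξ ≤ A * (size n : ℝ) ^ (-τ) ∧ ¬ HasMeasure d (C d) n}.Finite) ∧
      (∀ [MeasurableSpace X] (μ : Measure X) (C₀ δ τ : ℝ),
        (∀ (x : X) (r : ℝ), 0 < r → μ (Metric.closedBall x r) ≤ ENNReal.ofReal (C₀ * r ^ δ)) →
        (m : ℝ) + 1 ≤ τ * δ →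
        ∀ᵐ ξ ∂μ, ∀ (d : ℕ) (A : ℝ), {n : Fin (m + 1) → ℕ | (∀ i, 1 ≤ n i) ∧
          dist (φ n) ξ ≤ A * (size n : ℝ) ^ (-τ) ∧ ¬ HasMeasure d (C d) n}.Finite)) ∧
    (∀ᵐ x : Fin m → ℝ, ∀ (d : ℕ) (A : ℝ), {n : Fin (m + 1) → ℕ | (∀ i, 1 ≤ n i) ∧
      (∀ i : Fin m, |x i - (n i.succ : ℝ) / n 0| ≤ A * (n 0 : ℝ) ^ (-(1 + 1 / (m : ℝ)))) ∧
      ¬ HasMeasure d (C d) n}.Finite) := by
  choose C hC hcount using count m
  have hm0 : (0 : ℝ) < (m : ℝ) := by exact_mod_cast (by omega : 0 < m)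
  have hC0 : ∀ d, (0 : ℝ) < (C d : ℝ) := fun d => by
    exact_mod_cast (by have := hC d; omega : 0 < C d)
  have hcount' : ∀ d, ∀ ε : ℝ, 0 < ε → ∃ K : ℝ, ∀ B : ℝ, 1 ≤ B →
      {n : Fin (m + 1) → ℕ | ((∀ i, 1 ≤ n i) ∧ ¬ HasMeasure d (C d) n) ∧
        max (1 : ℝ) (size n) ≤ B}.Finite ∧
      (({n : Fin (m + 1) → ℕ | ((∀ i, 1 ≤ n i) ∧ ¬ HasMeasure d (C d) n) ∧
        max (1 : ℝ) (size n) ≤ B}.ncard : ℕ) : ℝ) ≤
        K * B ^ (((m : ℝ) + 1 - 1 / C d) + ε) := by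
    intro d ε hε
    obtain ⟨K, hK0, hK⟩ := hcount d
    refine ⟨K, fun B hB => ⟨(hK B hB).1, (hK B hB).2.trans ?_⟩⟩
    refine mul_le_mul_of_nonneg_left (Real.rpow_le_rpow_of_exponent_le hB ?_) hK0
    push_cast
    linarith
  have hs : ∀ d, 0 ≤ (m : ℝ) + 1 - 1 / C d := fun d => by
    have h1 : (1 : ℝ) ≤ (C d : ℝ) := by exact_mod_cast (by have := hC d; omega : 1 ≤ C d)
    have h2 : 1 / (C d : ℝ) ≤ 1 := by
      rw [div_le_one (hC0 d)]
      exact h1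
    linarith
  have hmax : ∀ n : Fin (m + 1) → ℕ, (∀ i, 1 ≤ n i) → max (1 : ℝ) (size n) = size n := by
    intro n hn
    refine max_eq_right ?_
    exact_mod_cast (hn 0).trans (le_size n 0)
  have hAE : ∀ (X : Type) [MetricSpace X] (φ : (Fin (m + 1) → ℕ) → X)
      [MeasurableSpace X] (μ : Measure X) (C₀ δ τ : ℝ),
      (∀ (x : X) (r : ℝ), 0 < r → μ (Metric.closedBall x r) ≤ ENNReal.ofReal (C₀ * r ^ δ)) →
      (m : ℝ) + 1 ≤ τ * δ →
      ∀ᵐ ξ ∂μ, ∀ (d : ℕ) (A : ℝ), {n : Fin (m + 1) → ℕ | (∀ i, 1 ≤ n i) ∧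
        dist (φ n) ξ ≤ A * (size n : ℝ) ^ (-τ) ∧ ¬ HasMeasure d (C d) n}.Finite := by
    intro X _ φ _ μ C₀ δ τ hμ hτ
    rw [ae_all_iff]
    intro d
    have h1 := Pool.Agent.R559.NP.near_ae (τ := τ) μ hμ (H := fun n : Fin (m + 1) → ℕ =>
      max (1 : ℝ) (size n)) (fun n => le_max_left _ _) (hs d)
      (by
        have := hC0 d
        have h3 : 0 < 1 / (C d : ℝ) := by positivity
        linarith) (hcount' d) φ
    filter_upwards [h1] with ξ hξ A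
    refine (hξ A).subset ?_
    rintro n ⟨h2, h3, h4⟩
    refine ⟨?_, h2, h4⟩
    rw [hmax n h2]
    exact h3
  refine ⟨C, hC, fun X _ φ => ⟨?_, fun μ C₀ δ τ hμ hτ => hAE X φ μ C₀ δ τ hμ hτ⟩, ?_⟩
  · intro d τ hτ
    obtain ⟨E, hE, hE'⟩ := Pool.Agent.R559.NP.near_dim (H := fun n : Fin (m + 1) → ℕ =>
      max (1 : ℝ) (size n)) (fun n => le_max_left _ _) (hs d) hτ (hcount' d) φ
    refine ⟨E, hE, fun ξ hξ A => (hE' ξ hξ A).subset ?_⟩
    rintro n ⟨h2, h3, h4⟩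
    refine ⟨?_, h2, h4⟩
    rw [hmax n h2]
    exact h3
  · have hvol : ∀ (x : Fin m → ℝ) (r : ℝ), 0 < r →
        volume (Metric.closedBall x r) ≤ ENNReal.ofReal ((2 : ℝ) ^ m * r ^ (m : ℝ)) := by
      intro x r hr
      rw [Real.volume_pi_closedBall x hr.le, Fintype.card_fin, Real.rpow_natCast, mul_pow]
    have h1 := hAE (Fin m → ℝ) (fun n i => (n i.succ : ℝ) / n 0) volume ((2 : ℝ) ^ m) m
      (1 + 1 / (m : ℝ)) hvol (by field_simp; exact le_refl _)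
    filter_upwards [h1] with x hx d A
    set L : ℝ := 1 + ‖x‖ + |A| with hL
    have hL1 : 1 ≤ L := by
      have := norm_nonneg x
      have := abs_nonneg A
      linarith
    set τ : ℝ := 1 + 1 / (m : ℝ) with hτ
    have hτ0 : 0 < τ := by positivity
    refine (hx d (|A| * L ^ τ)).subset ?_
    rintro n ⟨h2, h3, h4⟩
    refine ⟨h2, ?_, h4⟩
    have hn0 : (1 : ℝ) ≤ (n 0 : ℝ) := by exact_mod_cast h2 0
    have hpw : (n 0 : ℝ) ^ (-τ) ≤ 1 := Real.rpow_le_one_of_one_le_of_nonpos hn0 (by linarith)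
    have hpw0 : 0 < (n 0 : ℝ) ^ (-τ) := by positivity
    have hclose : ∀ i : Fin m, |x i - (n i.succ : ℝ) / n 0| ≤ |A| * (n 0 : ℝ) ^ (-τ) :=
      fun i => (h3 i).trans (mul_le_mul_of_nonneg_right (le_abs_self A) hpw0.le)
    have hsize : (size n : ℝ) ≤ L * n 0 := by
      obtain ⟨j, -, hj⟩ := Finset.exists_mem_eq_sup (Finset.univ : Finset (Fin (m + 1)))
        Finset.univ_nonempty n
      have hj' : size n = n j := hj
      rw [hj']
      refine Fin.cases ?_ (fun i => ?_) j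
      · nlinarith
      · have h5 := hclose i
        have h6 : |x i| ≤ ‖x‖ := norm_le_pi_norm x i
        have h7 : (n i.succ : ℝ) / n 0 ≤ L := by
          have h8 := abs_le.1 h5
          have h9 := abs_le.1 h6
          have h10 : |A| * (n 0 : ℝ) ^ (-τ) ≤ |A| := by
            have := abs_nonneg A
            nlinarith
          linarith [h8.1, h9.2]
        rwa [div_le_iff₀ (by linarith)] at h7
    have hsize0 : (0 : ℝ) < size n := by
      have : (1 : ℝ) ≤ size n := by exact_mod_cast (h2 0).trans (le_size n 0)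
      linarith
    have hkey : (n 0 : ℝ) ^ (-τ) ≤ L ^ τ * (size n : ℝ) ^ (-τ) := by
      have h5 : (size n : ℝ) ^ τ ≤ L ^ τ * (n 0 : ℝ) ^ τ := by
        rw [← Real.mul_rpow (by linarith) (by linarith)]
        exact Real.rpow_le_rpow hsize0.le hsize hτ0.le
      rw [Real.rpow_neg (by linarith), Real.rpow_neg hsize0.le, ← div_eq_mul_inv,
        le_div_iff₀ (by positivity), inv_mul_le_iff₀ (by positivity)]
      linarith [h5, mul_comm ((n 0 : ℝ) ^ τ) (L ^ τ)]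
    rw [dist_pi_le_iff (by positivity)]
    intro i
    rw [Real.dist_eq, abs_sub_comm]
    calc |x i - (n i.succ : ℝ) / n 0| ≤ |A| * (n 0 : ℝ) ^ (-τ) := hclose i
      _ ≤ |A| * (L ^ τ * (size n : ℝ) ^ (-τ)) := by gcongr
      _ = |A| * L ^ τ * (size n : ℝ) ^ (-τ) := by ring

end Pool.Agent.Results.MP_3cf473_nt.DirectionsNearAPoint
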