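import Pool.Agent.R523.LogE

/-!
# Pairs `(log α, t)`: the measure at arbitrarily large scales, and outside a sparse sequence

The problem asks for the measure `|P(log α_1, …, log α_n)| ≥ H^(-C)`. For `n = 1` this is known
(Mahler, Feldman); a proof is given in `Pool.Agent.R523.LogC`. Here we consider `n = 2`, with an
arbitrary complex number `t` in place of the second logarithm.
-/

set_option autoImplicit false

namespace Pool.Agent.Results.MP_3cf473_nt.PairsWithOneLogarithm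

open Polynomial Pool.Agent.R523.Gel Pool.Agent.TH456.TM

/-- the largest absolute value of a coefficient of `P` -/
noncomputable def height (P : ℤ[X][X]) : ℕ :=
  P.support.sup fun j => (P.coeff j).support.sup fun i => ((P.coeff j).coeff i).natAbs

/-- `P(x, y)` has degree at most `m` in `x` and at most `n` in `y` -/
def Bidegree (m n : ℕ) (P : ℤ[X][X]) : Prop :=
  (∀ j, (P.coeff j).natDegree ≤ m) ∧ P.natDegree ≤ n

/-- the exceptional polynomials: irreducible integer polynomials `P(x, y)` of degree at most `m` in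
`x` and at most `n` in `y`, normalised by a positive leading coefficient, with
`|P(lam, t)| ≤ (height P) ^ (-w)` -/
def Exceptional (lam t : ℂ) (m n : ℕ) (w : ℝ) : Set ℤ[X][X] :=
  {P | Irreducible P ∧ 0 < P.leadingCoeff.leadingCoeff ∧ Bidegree m n P ∧
    ‖aevalAeval lam t P‖ ≤ (height P : ℝ) ^ (-w)}

/-- Let `lam ≠ 0` be a logarithm of an algebraic number. For all `m`, `n` there is `W`, depending
only on `lam`, `m`, `n`, such that for all complex `t` (for instance another logarithm of an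
algebraic number):

(1) if `l ≥ 1` and `w > l W`, then there are arbitrarily large `X` such that for all
`X ≤ H ≤ X ^ l` and all integer polynomials `P` of bidegree at most `(m, n)` and height at most `H`
either `P(lam, t) = 0` or `|P(lam, t)| > H ^ (-w)`;

(2) if `ρ > 1` and `w > ρ W`, then for every `T` there is `C` such that for `|t| ≤ T` and `X ≥ 3` at
most `log log X / log ρ + C` exceptional polynomials have height at most `X`;

(3) for every `w ≥ 0` there is `c > 0` with `|P(lam, t)| ≥ c (height P) ^ (-w)` for all nonzero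
integer polynomials `P` of bidegree at most `(m, n)` which are not divisible by an exceptional
polynomial. -/
theorem result (lam : ℂ) (h0 : lam ≠ 0) (halg : IsAlgebraic ℚ (Complex.exp lam)) (m n : ℕ)
    (hn : 1 ≤ n) : ∃ W : ℝ, 0 < W ∧
    (∀ (t : ℂ) (l w : ℝ), 1 ≤ l → l * W < w → ∀ X₀ : ℝ, ∃ X : ℝ, X₀ ≤ X ∧
      ∀ H : ℝ, X ≤ H → H ≤ X ^ l → ∀ P : ℤ[X][X], Bidegree m n P → (height P : ℝ) ≤ H →
        aevalAeval lam t P = 0 ∨ H ^ (-w) < ‖aevalAeval lam t P‖) ∧
    (∀ ρ w T : ℝ, 1 < ρ → ρ * W < w → ∃ C : ℝ, ∀ t : ℂ, ‖t‖ ≤ T → ∀ X : ℝ, 3 ≤ X →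
      {P ∈ Exceptional lam t m n w | (height P : ℝ) ≤ X}.Finite ∧
      ({P ∈ Exceptional lam t m n w | (height P : ℝ) ≤ X}.ncard : ℝ) ≤
        Real.log (Real.log X) / Real.log ρ + C) ∧
    (∀ (t : ℂ) (w : ℝ), 0 ≤ w → ∃ c : ℝ, 0 < c ∧ ∀ P : ℤ[X][X], P ≠ 0 → Bidegree m n P →
      (∀ Q ∈ Exceptional lam t m n w, ¬ Q ∣ P) →
        c * (height P : ℝ) ^ (-w) ≤ ‖aevalAeval lam t P‖) := by
  have hnR : (1 : ℝ) ≤ n := by exact_mod_cast hn
  obtain ⟨κ, c, hκ, hc, hmeas⟩ := Pool.Agent.R523.LM.measT_of_exp lam h0 halg (2 * n * m)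
  have hnκ : 0 ≤ (n : ℝ) * κ := by positivity
  have hev : ∀ (t : ℂ) (P : ℤ[X][X]), aevalAeval lam t P = evR lam t P := fun t P => by
    rw [evR_apply, vl_eq]
  have hhgt : ∀ P : ℤ[X][X], height P = hgt P := fun P => rfl
  have hcoef : ∀ (P : ℤ[X][X]) (j k : ℕ), |(((P.coeff j).coeff k : ℤ) : ℝ)| ≤ hgt P := by
    intro P j k
    have h2 := le_hgt P j k
    have h3 : |(((P.coeff j).coeff k : ℤ) : ℝ)| = (((P.coeff j).coeff k).natAbs : ℝ) := by
      rw [Nat.cast_natAbs, Int.cast_abs]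
    rw [h3]
    exact_mod_cast h2
  refine ⟨2 * n * (1 + κ), by positivity, ?_, ?_, ?_⟩
  · intro t l w hl hw X₀
    obtain ⟨X, hX, h⟩ := Pool.Agent.R523.LM.windows lam t m n hn κ c hκ hc hmeas l w hl hw X₀
    refine ⟨X, hX, fun H hH1 hH2 P hP hPH => ?_⟩
    rw [hev]
    refine h H hH1 hH2 P hP.2 (xd_le P m hP.1) fun j k => (hcoef P j k).trans ?_
    rw [← hhgt]
    exact hPH
  · intro ρ w T hρ hw
    have h1 : 0 < (n : ℝ) * (1 + κ) := by positivity
    have h2 : (n : ℝ) * (1 + κ) ≤ ρ * (n * (1 + κ)) := le_mul_of_one_le_left h1.le hρ.le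
    obtain ⟨C, hC⟩ := near_count lam m n hn κ c hκ hc hmeas w ρ (by nlinarith) hρ (by
      rw [lt_div_iff₀ h1]
      nlinarith) T
    refine ⟨C, fun t ht X hX => ?_⟩
    have hset : {P ∈ Exceptional lam t m n w | (height P : ℝ) ≤ X} = Near lam m n t w X := by
      ext P
      constructor
      · rintro ⟨⟨h1, h2, h3, h4⟩, h5⟩
        refine ⟨h1, h2, h3.2, h3.1, h5, ?_⟩
        rw [vl_eq]
        exact h4
      · rintro ⟨h1, h2, h3, h4, h5, h6⟩
        rw [vl_eq] at h6
        exact ⟨⟨h1, h2, ⟨h4, h3⟩, h6⟩, h5⟩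
    rw [hset]
    exact hC t ht X hX
  · intro t w hw
    obtain ⟨c', hc', h⟩ := Pool.Agent.R523.LM.off_near lam t m n w hw
    refine ⟨c', hc', fun P hP0 hP hQ => ?_⟩
    rw [hev]
    refine h P hP0 hP.2 (xd_le P m hP.1) fun Q h1 h2 h3 h4 h5 => hQ Q ⟨h1, h2,
      ⟨fun j => (coeff_le_xd Q j).trans h4, h3⟩, ?_⟩
    rw [hev]
    exact h5

end Pool.Agent.Results.MP_3cf473_nt.PairsWithOneLogarithm
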