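import Pool.Agent.R728.RC.Each
import Pool.Agent.Results.MP_3cf473_nt.AlmostAllTuples

/-!
# The conjectural measure of algebraic independence for logarithms of integers in random residue classes

Let `𝓜` be a set of moduli with `∑ m ^ (-s) < ∞` and let `X m` be random elements of any sets
`Y m`, each value of which has probability at most `A m ^ (-θ)`; no independence is assumed. Let
`φ m` be any maps from the `k`-tuples of integers to `Y m`, for instance the reduction modulo `m`.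
There is `C`, depending only on `k` and `d`, such that for `ρ (k - 1 / C) ≤ θ - s`, almost surely,
for all but finitely many `m` in `𝓜`, ALL `k`-tuples `n` of integers in `[1, m ^ ρ]` with
`φ m n = X m` satisfy the bound `|P (l)| ≥ m ^ (-ρ) H ^ (-C)` in a doubly exponential range of
heights, and the bound `|P (l)| ≥ H ^ (-C)` for arbitrarily large heights `H`. If `m` runs through
the powers of a number and `X m` is uniform modulo `m`, then `ρ` can be larger than `1`.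
-/

set_option autoImplicit false

namespace Pool.Agent.Results.MP_3cf473_nt.RandomResidues

open MeasureTheory

/-- There are logarithms `l i` of the integers `n i` (of any branch with `|Im (l i)| ≤ H`) and a
nonzero polynomial `P` with integer coefficients, of total degree at most `d` and height at most
`H`, such that `|P (l)| < η`. -/
def Small {k : ℕ} (d : ℕ) (H η : ℝ) (n : Fin k → ℕ) : Prop :=
  ∃ l : Fin k → ℂ, (∀ i, Complex.exp (l i) = n i) ∧ (∀ i, |(l i).im| ≤ H) ∧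
    ∃ P : MvPolynomial (Fin k) ℤ, P ≠ 0 ∧ P.totalDegree ≤ d ∧
      (∀ s, |((P.coeff s : ℤ) : ℝ)| ≤ H) ∧ ‖MvPolynomial.aeval l P‖ < η

lemma Small.mono {k d : ℕ} {H η η' : ℝ} {n : Fin k → ℕ} (h : Small d H η n) (hη : η ≤ η') :
    Small d H η' n := by
  obtain ⟨l, h1, h2, P, h3, h4, h5, h6⟩ := h
  exact ⟨l, h1, h2, P, h3, h4, h5, lt_of_lt_of_le h6 hη⟩

/-- the two kinds of exceptional tuples with entries at most `T` -/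
def Exc (k d C : ℕ) (𝓗 : Set ℝ) (T : ℕ) : Set (Fin k → ℕ) :=
  {n | (∀ i, 1 ≤ n i ∧ n i ≤ T) ∧
    ((∃ H : ℝ, 2 ≤ H ∧ H ≤ Real.exp (Real.exp ((T : ℝ) ^ (1 / (C : ℝ)))) ∧
      Small d H (1 / T / H ^ C) n) ∨
    ∃ H₀ : ℝ, ∀ H ∈ 𝓗, H₀ ≤ H → Small d H (1 / H ^ C) n)}

lemma exc_card (k d : ℕ) : ∃ C : ℕ, 0 < C ∧ ∀ 𝓗 : Set ℝ, ¬ BddAbove 𝓗 → ∀ T : ℕ, 1 ≤ T →
    (Exc k d C 𝓗 T).Finite ∧
      (((Exc k d C 𝓗 T).ncard : ℕ) : ℝ) ≤ 3 * C * (T : ℝ) ^ ((k : ℝ) - 1 / C) := by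
  classical
  obtain ⟨C, hC, h⟩ := AlmostAllTuples.result k d
  refine ⟨C, hC, fun 𝓗 h𝓗 T hT => ?_⟩
  obtain ⟨h1, -, h3⟩ := h T hT
  have hT0 : (0 : ℝ) < T := by exact_mod_cast hT
  have hT1 : (1 : ℝ) ≤ T := by exact_mod_cast hT
  have h1' := h1 (1 / T) (by positivity) (by rw [div_le_one hT0]; exact hT1)
  have h3' := h3 𝓗 h𝓗
  set F1 := (AlmostAllTuples.box k T).filter fun n => ∃ H : ℝ, 2 ≤ H ∧
        H ≤ Real.exp (Real.exp ((T : ℝ) ^ (1 / (C : ℝ)))) ∧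
        AlmostAllTuples.Small d H (1 / T / H ^ C) n with hF1
  set F2 := (AlmostAllTuples.box k T).filter fun n => ∃ H₀ : ℝ, ∀ H ∈ 𝓗, H₀ ≤ H →
    AlmostAllTuples.Small d H (1 / H ^ C) n with hF2
  have hsub : Exc k d C 𝓗 T ⊆ ((F1 ∪ F2 : Finset (Fin k → ℕ)) : Set (Fin k → ℕ)) := by
    rintro n ⟨g1, g2⟩
    have hbox : n ∈ AlmostAllTuples.box k T := by
      unfold AlmostAllTuples.box
      rw [Fintype.mem_piFinset]
      intro i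
      rw [Finset.mem_Icc]
      exact g1 i
    rw [Finset.mem_coe, Finset.mem_union]
    rcases g2 with g | g
    · left
      rw [hF1, Finset.mem_filter]
      exact ⟨hbox, g⟩
    · right
      rw [hF2, Finset.mem_filter]
      exact ⟨hbox, g⟩
  have hfin := (F1 ∪ F2).finite_toSet.subset hsub
  refine ⟨hfin, ?_⟩
  have h4 : (Exc k d C 𝓗 T).ncard ≤ (F1 ∪ F2).card := by
    rw [← Set.ncard_coe_finset]
    exact Set.ncard_le_ncard hsub (Finset.finite_toSet _)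
  have h5 : (((Exc k d C 𝓗 T).ncard : ℕ) : ℝ) ≤ (F1.card : ℝ) + F2.card := by
    exact_mod_cast h4.trans (Finset.card_union_le _ _)
  have h6 : (1 / (T : ℝ)) ^ (1 / (C : ℝ)) * (T : ℝ) ^ k = (T : ℝ) ^ ((k : ℝ) - 1 / C) := by
    rw [one_div (T : ℝ), Real.inv_rpow hT0.le, ← Real.rpow_neg hT0.le, ← Real.rpow_natCast,
      ← Real.rpow_add hT0]
    congr 1
    ring
  rw [h6] at h1'
  linarith

/-- the general statement -/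
lemma general {k d C : ℕ} (hk : 1 ≤ k) (hC : 0 < C)
    (hcard : ∀ 𝓗 : Set ℝ, ¬ BddAbove 𝓗 → ∀ T : ℕ, 1 ≤ T → (Exc k d C 𝓗 T).Finite ∧
      (((Exc k d C 𝓗 T).ncard : ℕ) : ℝ) ≤ 3 * C * (T : ℝ) ^ ((k : ℝ) - 1 / C))
    {𝓜 : Set ℕ} {s θ A ρ : ℝ} {Ω : Type} [MeasurableSpace Ω] {P : Measure Ω} {Y : ℕ → Type}
    {X : ∀ m : ℕ, Ω → Y m} {φ : ∀ m : ℕ, (Fin k → ℕ) → Y m} {𝓗 : Set ℝ}
    (h0 : ∀ m ∈ 𝓜, 0 < m) (hsum : Summable fun m : 𝓜 => ((m : ℕ) : ℝ) ^ (-s))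
    (hX : ∀ m ∈ 𝓜, ∀ r : Y m, P {ω | X m ω = r} ≤ ENNReal.ofReal (A * (m : ℝ) ^ (-θ)))
    (hρ : 0 ≤ ρ) (hρ2 : ρ * (k - 1 / C) ≤ θ - s) (h𝓗 : ¬ BddAbove 𝓗) :
    ∀ᵐ ω ∂P, ∃ m₀ : ℕ, ∀ m ∈ 𝓜, m₀ ≤ m → ∀ n : Fin k → ℕ,
      (∀ i, 1 ≤ n i ∧ (n i : ℝ) ≤ (m : ℝ) ^ ρ) → φ m n = X m ω →
      (∀ H : ℝ, 2 ≤ H → H ≤ Real.exp (Real.exp ((⌊(m : ℝ) ^ ρ⌋₊ : ℝ) ^ (1 / (C : ℝ)))) →
        ¬ Small d H (1 / ((m : ℝ) ^ ρ * H ^ C)) n) ∧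
      ∀ H₀ : ℝ, ∃ H ∈ 𝓗, H₀ ≤ H ∧ ¬ Small d H (1 / H ^ C) n := by
  have hfl : ∀ m ∈ 𝓜, 1 ≤ ⌊(m : ℝ) ^ ρ⌋₊ := by
    intro m hm
    apply Nat.le_floor
    have h1 : (1 : ℝ) ≤ (m : ℝ) := by exact_mod_cast h0 m hm
    exact_mod_cast Real.one_le_rpow h1 hρ
  have hexp : (0 : ℝ) ≤ (k : ℝ) - 1 / C := by
    have h1 : (1 : ℝ) ≤ k := by exact_mod_cast hk
    have h2 : 1 / (C : ℝ) ≤ 1 := by
      rw [div_le_one (by exact_mod_cast hC)]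
      exact_mod_cast hC
    linarith
  have hmain := Pool.Agent.R728.RC.eventually_each (𝓜 := 𝓜) (s := s) (θ := θ) (A := A)
    (D := 3 * C) (X := X) (φ := φ) (P := P)
    (F := fun m => Exc k d C 𝓗 ⌊(m : ℝ) ^ ρ⌋₊) h0 hsum hX (by
      intro m hm
      obtain ⟨h1, h2⟩ := hcard 𝓗 h𝓗 _ (hfl m hm)
      refine ⟨h1, h2.trans ?_⟩
      have h3 : (1 : ℝ) ≤ (m : ℝ) := by exact_mod_cast h0 m hm
      have h4 : ((⌊(m : ℝ) ^ ρ⌋₊ : ℕ) : ℝ) ≤ (m : ℝ) ^ ρ := Nat.floor_le (by positivity)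
      apply mul_le_mul_of_nonneg_left _ (by positivity)
      calc ((⌊(m : ℝ) ^ ρ⌋₊ : ℕ) : ℝ) ^ ((k : ℝ) - 1 / C)
          ≤ ((m : ℝ) ^ ρ) ^ ((k : ℝ) - 1 / C) :=
            Real.rpow_le_rpow (Nat.cast_nonneg _) h4 hexp
        _ = (m : ℝ) ^ (ρ * ((k : ℝ) - 1 / C)) := by
            rw [← Real.rpow_mul (by linarith)]
        _ ≤ (m : ℝ) ^ (θ - s) := Real.rpow_le_rpow_of_exponent_le h3 hρ2)
  filter_upwards [hmain] with ω hω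
  obtain ⟨m₀, hm₀⟩ := hω
  refine ⟨m₀, fun m hm hmm n hn hφ => ?_⟩
  have h3 : (1 : ℝ) ≤ (m : ℝ) := by exact_mod_cast h0 m hm
  have hT := hfl m hm
  have hT0 : (0 : ℝ) < ((⌊(m : ℝ) ^ ρ⌋₊ : ℕ) : ℝ) := by exact_mod_cast hT
  have h4 : ((⌊(m : ℝ) ^ ρ⌋₊ : ℕ) : ℝ) ≤ (m : ℝ) ^ ρ := Nat.floor_le (by positivity)
  have hnot : n ∉ Exc k d C 𝓗 ⌊(m : ℝ) ^ ρ⌋₊ := fun h => hm₀ m hm hmm n h hφ
  have hbox : ∀ i, 1 ≤ n i ∧ n i ≤ ⌊(m : ℝ) ^ ρ⌋₊ := fun i =>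
    ⟨(hn i).1, Nat.le_floor (hn i).2⟩
  constructor
  · intro H hH1 hH2 hsmall
    apply hnot
    refine ⟨hbox, Or.inl ⟨H, hH1, hH2, hsmall.mono ?_⟩⟩
    rw [div_div]
    apply one_div_le_one_div_of_le (by positivity)
    gcongr
  · intro H₀
    by_contra hcon
    push Not at hcon
    apply hnot
    exact ⟨hbox, Or.inr ⟨H₀, fun H h5 h6 => hcon H h5 h6⟩⟩

/-- **Theorem.** Let `k ≥ 1` and `d` be given. There is an integer `C > 0`, depending only on `k`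
and `d`, with the following properties; `𝓗` is any unbounded set of real numbers.

(1) Let `𝓜` be a set of positive integers with a convergent sum of the `m ^ (-s)`, let `X m` be
random elements of arbitrary sets `Y m`, each value of which has probability at most
`A m ^ (-θ)` (no independence is assumed), and let `φ m` be any maps from the `k`-tuples of
natural numbers to `Y m`; let `ρ ≥ 0` and `ρ (k - 1 / C) ≤ θ - s`. Almost surely, for all but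
finitely many `m` in `𝓜`, ALL `k`-tuples `n` of integers with `1 ≤ n i ≤ m ^ ρ` and `φ m n = X m`
satisfy

* `|P (l)| ≥ m ^ (-ρ) H ^ (-C)` for all `2 ≤ H ≤ exp (exp (⌊m ^ ρ⌋ ^ (1 / C)))`, all logarithms
  `l i` of the `n i` with `|Im (l i)| ≤ H` and all nonzero integer polynomials `P` of degree at
  most `d` and height at most `H`;
* `|P (l)| ≥ H ^ (-C)`, for the same `l` and `P`, for arbitrarily large `H` in `𝓗`.

(2) In particular this holds for all but finitely many powers `m` of an integer `b ≥ 2`, for all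
`k`-tuples `n` with `n ≡ X m` modulo `m`, `1 ≤ n i ≤ m ^ ρ`, if `X m` is random modulo `m`, each
value having probability at most `A m ^ (-k)`, and `0 ≤ ρ < k / (k - 1 / C)`, where `ρ > 1` is
allowed. -/
theorem result (k d : ℕ) (hk : 1 ≤ k) : ∃ C : ℕ, 0 < C ∧
    (∀ (𝓜 : Set ℕ) (s θ A ρ : ℝ) (Ω : Type) [MeasurableSpace Ω] (P : Measure Ω) (Y : ℕ → Type)
      (X : ∀ m : ℕ, Ω → Y m) (φ : ∀ m : ℕ, (Fin k → ℕ) → Y m) (𝓗 : Set ℝ),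
      (∀ m ∈ 𝓜, 0 < m) → (Summable fun m : 𝓜 => ((m : ℕ) : ℝ) ^ (-s)) →
      (∀ m ∈ 𝓜, ∀ r : Y m, P {ω | X m ω = r} ≤ ENNReal.ofReal (A * (m : ℝ) ^ (-θ))) →
      0 ≤ ρ → ρ * (k - 1 / C) ≤ θ - s → ¬ BddAbove 𝓗 →
      ∀ᵐ ω ∂P, ∃ m₀ : ℕ, ∀ m ∈ 𝓜, m₀ ≤ m → ∀ n : Fin k → ℕ,
        (∀ i, 1 ≤ n i ∧ (n i : ℝ) ≤ (m : ℝ) ^ ρ) → φ m n = X m ω →
        (∀ H : ℝ, 2 ≤ H → H ≤ Real.exp (Real.exp ((⌊(m : ℝ) ^ ρ⌋₊ : ℝ) ^ (1 / (C : ℝ)))) →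
          ¬ Small d H (1 / ((m : ℝ) ^ ρ * H ^ C)) n) ∧
        ∀ H₀ : ℝ, ∃ H ∈ 𝓗, H₀ ≤ H ∧ ¬ Small d H (1 / H ^ C) n) ∧
    ∀ (b : ℕ) (A ρ : ℝ) (Ω : Type) [MeasurableSpace Ω] (P : Measure Ω)
      (X : ∀ m : ℕ, Ω → (Fin k → ZMod m)) (𝓗 : Set ℝ), 2 ≤ b →
      (∀ (j : ℕ) (r : Fin k → ZMod (b ^ j)), P {ω | X (b ^ j) ω = r} ≤
        ENNReal.ofReal (A * ((b ^ j : ℕ) : ℝ) ^ (-(k : ℝ)))) →
      0 ≤ ρ → ρ * (k - 1 / C) < k → ¬ BddAbove 𝓗 →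
      ∀ᵐ ω ∂P, ∃ m₀ : ℕ, ∀ j : ℕ, m₀ ≤ b ^ j → ∀ n : Fin k → ℕ,
        (∀ i, 1 ≤ n i ∧ (n i : ℝ) ≤ ((b ^ j : ℕ) : ℝ) ^ ρ) →
        (fun i => (n i : ZMod (b ^ j))) = X (b ^ j) ω →
        (∀ H : ℝ, 2 ≤ H →
          H ≤ Real.exp (Real.exp ((⌊((b ^ j : ℕ) : ℝ) ^ ρ⌋₊ : ℝ) ^ (1 / (C : ℝ)))) →
          ¬ Small d H (1 / (((b ^ j : ℕ) : ℝ) ^ ρ * H ^ C)) n) ∧
        ∀ H₀ : ℝ, ∃ H ∈ 𝓗, H₀ ≤ H ∧ ¬ Small d H (1 / H ^ C) n := by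
  obtain ⟨C, hC, hcard⟩ := exc_card k d
  refine ⟨C, hC, fun 𝓜 s θ A ρ Ω _ P Y X φ 𝓗 h0 hsum hX hρ hρ2 h𝓗 =>
    general hk hC hcard h0 hsum hX hρ hρ2 h𝓗, fun b A ρ Ω _ P X 𝓗 hb hX hρ hρ2 h𝓗 => ?_⟩
  have hmain := general (𝓜 := {m : ℕ | ∃ j : ℕ, m = b ^ j}) (s := k - ρ * (k - 1 / C)) (θ := k)
    (A := A) (P := P) (X := X) (φ := fun m n i => (n i : ZMod m)) (𝓗 := 𝓗) hk hC hcard
    (by rintro m ⟨j, rfl⟩; positivity)
    (Pool.Agent.R728.RC.summable_powers hb (by linarith))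
    (by rintro m ⟨j, rfl⟩ r; exact hX j r) hρ (by linarith) h𝓗
  filter_upwards [hmain] with ω hω
  obtain ⟨m₀, hm₀⟩ := hω
  exact ⟨m₀, fun j hj n hn hφ => hm₀ (b ^ j) ⟨j, rfl⟩ hj n hn hφ⟩

end Pool.Agent.Results.MP_3cf473_nt.RandomResidues
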